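import Pool.Agent.Y443.BR.Fin

/-!
# `2^𝔠` zero-dimensional `σ`-homogeneous spaces which are rigid for Borel maps

ZFC proves that there are `2^𝔠` subspaces `X s` of the Cantor set, each the union of two disjoint
homogeneous subspaces, such that

* every uncountable Borel subset of the Cantor set meets both pieces of `X s` and the complement of
  `X s` in continuum many points;
* every Borel map of `X s` to itself takes only countably many values at the points that it moves,
  so the inclusion is the only continuous injection of a nonempty open subspace of `X s` to `X s`;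
* every Borel map from `X s` to `X t` with `s ≠ t` has a countable range.
-/

set_option autoImplicit false

namespace Pool.Agent.Results.MP_5382b1_gt.BorelRigidFamily

open Set Cardinal Topology Pool.Agent.H3R3.Rigid Pool.Agent.Y443.BR

/-- A space `Y` is homogeneous if every point can be moved to every other point by a homeomorphism
of `Y` onto itself. -/
def Homogeneous (Y : Type) [TopologicalSpace Y] : Prop :=
  ∀ x y : Y, ∃ h : Y ≃ₜ Y, h x = y

/-- A space `X` is `σ`-homogeneous if it is the union of countably many homogeneous subspaces. -/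
def SigmaHomogeneous (X : Type) [TopologicalSpace X] : Prop :=
  ∃ A : ℕ → Set X, (⋃ n, A n) = Set.univ ∧ ∀ n, Homogeneous (A n)

/-- A space `X` is rigid if it has at least two points and the identity is the only homeomorphism
of `X` onto itself. -/
def Rigid (X : Type) [TopologicalSpace X] : Prop :=
  Nontrivial X ∧ ∀ (h : X ≃ₜ X) (x : X), h x = x

lemma isClosed_agr (k : ℕ) (x : C) : IsClosed {y : C | Agr k x y} := by
  have h : {y : C | Agr k x y} = ⋂ i ∈ Set.Iio k, {y : C | y i = x i} := by
    ext y
    simp [Agr]
  rw [h]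
  exact isClosed_biInter fun i _ => isClosed_eq (continuous_apply i) continuous_const

/-- A set of points of the Cantor set on which homeomorphisms of the Cantor set act transitively. -/
lemma homogeneous_of_moves {A : Set C}
    (hA : ∀ x ∈ A, ∀ y ∈ A, ∃ H : C ≃ₜ C, H x = y ∧ ∀ p, p ∈ A ↔ H p ∈ A) :
    Homogeneous A := by
  intro x y
  obtain ⟨H, hH, hHA⟩ := hA x.1 x.2 y.1 y.2
  have hHA' : ∀ p, p ∈ A → H.symm p ∈ A := by
    intro p hp
    rw [hHA]; simpa using hp
  refine ⟨{ toFun := fun p => ⟨H p.1, (hHA _).1 p.2⟩
            invFun := fun p => ⟨H.symm p.1, hHA' _ p.2⟩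
            left_inv := fun p => Subtype.ext (by simp)
            right_inv := fun p => Subtype.ext (by simp)
            continuous_toFun := ?_
            continuous_invFun := ?_ }, ?_⟩
  · exact (H.continuous.comp continuous_subtype_val).subtype_mk _
  · exact (H.symm.continuous.comp continuous_subtype_val).subtype_mk _
  · exact Subtype.ext hH

lemma homogeneous_piece {A X : Set C} (hAX : A ⊆ X)
    (hA : ∀ x ∈ A, ∀ y ∈ A, ∃ H : C ≃ₜ C, H x = y ∧ ∀ p, p ∈ A ↔ H p ∈ A) :
    Homogeneous {x : X | x.1 ∈ A} := by
  intro x y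
  obtain ⟨H, hH, hHA⟩ := hA x.1.1 x.2 y.1.1 y.2
  have hHA' : ∀ p, p ∈ A → H.symm p ∈ A := by
    intro p hp
    rw [hHA]; simpa using hp
  refine ⟨{ toFun := fun p => ⟨⟨H p.1.1, hAX ((hHA _).1 p.2)⟩, (hHA _).1 p.2⟩
            invFun := fun p => ⟨⟨H.symm p.1.1, hAX (hHA' _ p.2)⟩, hHA' _ p.2⟩
            left_inv := fun p => Subtype.ext (Subtype.ext (by simp))
            right_inv := fun p => Subtype.ext (Subtype.ext (by simp))
            continuous_toFun := ?_
            continuous_invFun := ?_ }, ?_⟩
  · exact ((H.continuous.comp (continuous_subtype_val.comp continuous_subtype_val)).subtype_mk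
      _).subtype_mk _
  · exact ((H.symm.continuous.comp (continuous_subtype_val.comp
      continuous_subtype_val)).subtype_mk _).subtype_mk _
  · exact Subtype.ext (Subtype.ext hH)

lemma move_false {A : Set C} (hA : ∀ p q, EE false p q → p ∈ A → q ∈ A) :
    ∀ x ∈ A, ∀ y ∈ A, ∃ H : C ≃ₜ C, H x = y ∧ ∀ p, p ∈ A ↔ H p ∈ A :=
  fun x hx y hy => ⟨swapHomeo x y, swap_self x y, fun p => mem_swap_iff hA hx hy p⟩

lemma move_true {A : Set C} (hA : ∀ p q, EE true p q → p ∈ A → q ∈ A) :
    ∀ x ∈ A, ∀ y ∈ A, ∃ H : C ≃ₜ C, H x = y ∧ ∀ p, p ∈ A ↔ H p ∈ A := by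
  intro x hx y hy
  have hB : ∀ p q, E0 p q → p ∈ triHomeo.symm ⁻¹' A → q ∈ triHomeo.symm ⁻¹' A := by
    intro p q hpq hp
    refine hA _ _ ?_ hp
    show E0 (triHomeo (triHomeo.symm p)) (triHomeo (triHomeo.symm q))
    simpa using hpq
  refine ⟨(triHomeo.trans (swapHomeo (tri x) (tri y))).trans triHomeo.symm, ?_, fun p => ?_⟩
  · show triHomeo.symm (swap (tri x) (tri y) (tri x)) = y
    rw [swap_self, ← triHomeo_apply, Homeomorph.symm_apply_apply]
  · have hx' : tri x ∈ triHomeo.symm ⁻¹' A := by
      show triHomeo.symm (triHomeo x) ∈ A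
      simpa using hx
    have hy' : tri y ∈ triHomeo.symm ⁻¹' A := by
      show triHomeo.symm (triHomeo y) ∈ A
      simpa using hy
    have h1 := mem_swap_iff hB hx' hy' (tri p)
    have h2 : tri p ∈ triHomeo.symm ⁻¹' A ↔ p ∈ A := by
      show triHomeo.symm (triHomeo p) ∈ A ↔ p ∈ A
      simp
    rw [← h2]
    exact h1

/-- **Main theorem.**  There are sets `A s` and `B s` of points of the Cantor set `ℕ → Bool`, for
every set `s` of points of the Cantor set (so there are `2^𝔠` indices), such that, with
`X s = A s ∪ B s`, the following holds.  See the module docstring. -/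
theorem result :
    ∃ A B X : Set (ℕ → Bool) → Set (ℕ → Bool),
      -- `X s` is the union of two disjoint homogeneous subspaces
      (∀ s, X s = A s ∪ B s ∧ Disjoint (A s) (B s) ∧ Homogeneous (A s) ∧ Homogeneous (B s)) ∧
      -- so `X s` is `σ`-homogeneous, and it is separable, metrizable and zero-dimensional
      (∀ s, SigmaHomogeneous (X s) ∧
        TopologicalSpace.SeparableSpace (X s) ∧ TopologicalSpace.MetrizableSpace (X s) ∧
        TopologicalSpace.IsTopologicalBasis {U : Set (X s) | IsClopen U}) ∧
      -- the pieces and the complement of `X s` meet every uncountable Borel set in `𝔠` points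
      (∀ s (D : Set (ℕ → Bool)), MeasurableSet D → ¬ D.Countable →
        𝔠 ≤ #(D ∩ A s : Set (ℕ → Bool)) ∧ 𝔠 ≤ #(D ∩ B s : Set (ℕ → Bool)) ∧
        𝔠 ≤ #(D \ X s : Set (ℕ → Bool))) ∧
      -- a Borel map from `X s` to itself has countably many values at the points that it moves
      (∀ s (f : X s → X s), Measurable f → (f '' {x | f x ≠ x}).Countable) ∧
      -- the only continuous injections from an open subspace of `X s` to `X s` are inclusions
      (∀ s (U : Set (X s)) (f : U → X s), IsOpen U → Continuous f → Function.Injective f →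
        ∀ x, f x = x) ∧
      -- the space `X s` is rigid
      (∀ s, Rigid (X s)) ∧
      -- a Borel map from `X s` to `X t` with `s ≠ t` has a countable range
      (∀ s t (f : X s → X t), s ≠ t → Measurable f → (Set.range f).Countable) ∧
      -- no nonempty open subspace of `X s` has a continuous injection to `X t` for `s ≠ t`
      (∀ s t (U : Set (X s)) (f : U → X t), s ≠ t → IsOpen U → U.Nonempty → Continuous f →
        ¬ Function.Injective f) ∧
      -- so `X s` and `X t` are homeomorphic for `s = t` only
      (∀ s t, Nonempty (X s ≃ₜ X t) → s = t) := by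
  obtain ⟨A, hinv, hdis, hbern, hkill⟩ := exists_family
  have hf : ∀ s, ∀ x ∈ A false s, ∀ y ∈ A false s,
      ∃ H : C ≃ₜ C, H x = y ∧ ∀ p, p ∈ A false s ↔ H p ∈ A false s :=
    fun s => move_false fun p q => hinv false s p q
  have ht : ∀ s, ∀ x ∈ A true s, ∀ y ∈ A true s,
      ∃ H : C ≃ₜ C, H x = y ∧ ∀ p, p ∈ A true s ↔ H p ∈ A true s :=
    fun s => move_true fun p q => hinv true s p q
  let X : Set C → Set C := fun s => A false s ∪ A true s
  -- another index
  have hother : ∀ s : Set C, ∃ t : Set C, s ≠ t := fun s => ⟨sᶜ, fun h => by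
    have h1 : (fun _ => true : C) ∈ s ↔ (fun _ => true : C) ∈ sᶜ := by rw [← h]
    rw [mem_compl_iff] at h1
    tauto⟩
  have hB1 : ∀ (s : Set C) (c : Bool) (D : Set C), MeasurableSet D → ¬ D.Countable →
      𝔠 ≤ #(D ∩ A c s : Set C) := by
    intro s c D hD hDc
    obtain ⟨t, hst⟩ := hother s
    exact (hbern c s t D hst hD (continuum_le_of_borel hD hDc)).trans
      (mk_le_mk_of_subset fun x hx => ⟨hx.1, hx.2.1⟩)
  have hB2 : ∀ (s : Set C) (D : Set C), MeasurableSet D → ¬ D.Countable →
      𝔠 ≤ #(D \ X s : Set C) := by
    intro s D hD hDc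
    obtain ⟨t, hst⟩ := hother s
    exact (hbern false t s D hst.symm hD (continuum_le_of_borel hD hDc)).trans
      (mk_le_mk_of_subset fun x hx => ⟨hx.1, hx.2.2⟩)
  -- the moved values
  have hmoved : ∀ (s t : Set C) (f : X s → X t), Measurable f →
      {y : C | ∃ x : X s, (f x).1 = y ∧ y ≠ x.1}.Countable := by
    intro s t f hfm
    by_contra hc
    obtain ⟨F, hF, hFf⟩ := exists_extension (fun x => (f x).1)
      (measurable_subtype_coe.comp hfm)
    have h1 : ¬ {y | ∃ x, F x = y ∧ y ≠ x}.Countable := by
      intro h
      refine hc (h.mono ?_)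
      rintro y ⟨x, hx, hxy⟩
      exact ⟨x.1, by rw [hFf]; exact hx, hxy⟩
    obtain ⟨x, hx, hx'⟩ := hkill F hF (moved_big hF h1)
    apply hx' t
    have h2 := hFf ⟨x, hx s⟩
    simp only at h2
    rw [h2]
    exact (f ⟨x, hx s⟩).2
  -- different indices
  have hcross : ∀ (s t : Set C) (f : X s → X t), s ≠ t → Measurable f →
      (Set.range f).Countable := by
    intro s t f hst hfm
    have h0 := hmoved s t f hfm
    obtain ⟨F, hF, hFf⟩ := exists_extension (fun x => (f x).1)
      (measurable_subtype_coe.comp hfm)
    have h1 : {x | F x = x}.Countable := by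
      by_contra hc
      have h2 : MeasurableSet {x | F x = x} := measurableSet_eq_fun hF measurable_id
      have h3 := hbern false s t _ hst h2 (continuum_le_of_borel h2 hc)
      have h4 : {x | x ∈ {x | F x = x} ∧ x ∈ A false s ∧ x ∉ A false t ∪ A true t}.Nonempty := by
        rw [nonempty_iff_ne_empty]
        intro h
        have h5 : #(∅ : Set C) = 0 := mk_eq_zero _
        rw [h, h5] at h3
        exact absurd h3 (not_le.2 (aleph0_pos.trans aleph0_lt_continuum))
      obtain ⟨x, hx1, hx2, hx3⟩ := h4
      apply hx3
      have h5 := hFf ⟨x, Or.inl hx2⟩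
      simp only at h5
      have h6 : F x = x := hx1
      rw [← h6, h5]
      exact (f ⟨x, Or.inl hx2⟩).2
    have h2 : (Subtype.val '' Set.range f).Countable := by
      refine (h0.union h1).mono ?_
      rintro _ ⟨_, ⟨x, rfl⟩, rfl⟩
      by_cases h : (f x).1 = x.1
      · right
        show F (f x).1 = (f x).1
        have h7 := hFf x
        rw [h] at h7 ⊢
        exact h7
      · left
        exact ⟨x, rfl, h⟩
    exact countable_of_injective_of_countable_image Subtype.val_injective.injOn h2
  have hopen : ∀ (s : Set C) (U : Set (X s)), IsOpen U → U.Nonempty → ¬ U.Countable := by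
    intro s U hU hUn hUc
    obtain ⟨x, hx⟩ := hUn
    obtain ⟨V, hV, rfl⟩ := isOpen_induced_iff.1 hU
    obtain ⟨k, hk⟩ := exists_agr_of_isOpen hV hx
    have h1 : MeasurableSet {y : C | Agr k x.1 y} := (isClosed_agr k x.1).measurableSet
    have h2 : ¬ {y : C | Agr k x.1 y}.Countable := by
      intro hcn
      have h3 : {y : C | Agr k x.1 y} = Set.range (fun z : C => fun i => if i < k then x.1 i else z (i - k)) := by
        ext y
        constructor
        · intro hy
          refine ⟨fun i => y (i + k), ?_⟩
          funext i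
          by_cases hi : i < k
          · simp only [hi, if_true]
            exact (hy i hi).symm
          · simp only [hi, if_false]
            rw [Nat.sub_add_cancel (not_lt.1 hi)]
        · rintro ⟨z, rfl⟩ i hi
          simp [hi]
      have h4 : Function.Injective (fun z : C => fun i => if i < k then x.1 i else z (i - k)) := by
        intro z w hzw
        funext i
        have h5 := congrFun hzw (i + k)
        simpa using h5
      rw [h3] at hcn
      have h5 : Countable C := by
        have : Countable (Set.range (fun z : C => fun i => if i < k then x.1 i else z (i - k))) := hcn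
        exact (Set.rangeFactorization_injective.2 h4).countable
      have h6 : #C ≤ ℵ₀ := mk_le_aleph0_iff.2 h5
      rw [mk_C] at h6
      exact absurd h6 (not_le.2 aleph0_lt_continuum)
    have h3 := hB1 s false _ h1 h2
    have h4 : ({y : C | Agr k x.1 y} ∩ A false s).Countable := by
      refine (hUc.image Subtype.val).mono ?_
      rintro y ⟨hy1, hy2⟩
      exact ⟨⟨y, Or.inl hy2⟩, hk _ hy1, rfl⟩
    exact absurd (h3.trans h4.le_aleph0) (not_le.2 aleph0_lt_continuum)
  -- continuous injections of open subspaces
  have hinj : ∀ (s : Set C) (U : Set (X s)) (f : U → X s), IsOpen U → Continuous f →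
      Function.Injective f → ∀ x, f x = x := by
    classical
    intro s U f hU hfc hfi
    let g : X s → X s := fun x => if h : x ∈ U then f ⟨x, h⟩ else x
    have hg : Measurable g :=
      Measurable.dite hfc.measurable (g := fun x : (Uᶜ : Set (X s)) => x.1)
        measurable_subtype_coe hU.measurableSet
    have h1 := hmoved s s g hg
    have hV : IsOpen {x : U | f x ≠ x} :=
      (isClosed_eq hfc continuous_subtype_val).isOpen_compl
    have hVc : {x : U | f x ≠ x}.Countable := by
      refine countable_of_injective_of_countable_image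
        (f := fun x : U => (f x).1) (fun x _ y _ hxy => hfi (Subtype.ext hxy)) (h1.mono ?_)
      rintro _ ⟨x, hx, rfl⟩
      refine ⟨x.1, ?_, ?_⟩
      · show (g x.1).1 = (f x).1
        simp only [g, dif_pos x.2]
      · intro h
        exact hx (Subtype.ext h)
    have hV' : IsOpen (Subtype.val '' {x : U | f x ≠ x}) := hU.isOpenMap_subtype_val _ hV
    intro x
    by_contra hx
    exact hopen s _ hV' ⟨x.1, x, hx, rfl⟩ (hVc.image _)
  have hninj : ∀ (s t : Set C) (U : Set (X s)) (f : U → X t), s ≠ t → IsOpen U → U.Nonempty →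
      Continuous f → ¬ Function.Injective f := by
    classical
    intro s t U f hst hU hUn hfc hfi
    obtain ⟨x₀, hx₀⟩ := hUn
    let g : X s → X t := fun x => if h : x ∈ U then f ⟨x, h⟩ else f ⟨x₀, hx₀⟩
    have hg : Measurable g :=
      Measurable.dite hfc.measurable (g := fun _ : (Uᶜ : Set (X s)) => f ⟨x₀, hx₀⟩)
        measurable_const hU.measurableSet
    have h1 := hcross s t g hst hg
    have h2 : (univ : Set U).Countable := by
      refine countable_of_injective_of_countable_image (f := f) hfi.injOn (h1.mono ?_)
      rintro _ ⟨x, -, rfl⟩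
      refine ⟨x.1, ?_⟩
      simp only [g, dif_pos x.2]
    refine hopen s U hU ⟨x₀, hx₀⟩ ((h2.image Subtype.val).mono ?_)
    intro x hx
    exact ⟨⟨x, hx⟩, mem_univ _, rfl⟩
  have hnt : ∀ s, Nontrivial (X s) := by
    intro s
    have hu : ¬ (univ : Set C).Countable := by
      intro h
      have h1 : #C ≤ ℵ₀ := mk_le_aleph0_iff.2 (countable_univ_iff.1 h)
      rw [mk_C] at h1
      exact absurd h1 (not_le.2 aleph0_lt_continuum)
    have h1 := hB1 s false univ MeasurableSet.univ hu
    have h2 : 𝔠 ≤ #(X s) := h1.trans (mk_le_mk_of_subset fun x hx => Or.inl hx.2)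
    rw [← Cardinal.one_lt_iff_nontrivial]
    exact (one_lt_aleph0.trans aleph0_lt_continuum).trans_le h2
  refine ⟨A false, A true, X, fun s => ⟨rfl, hdis s, homogeneous_of_moves (hf s),
    homogeneous_of_moves (ht s)⟩, ?_, fun s D hD hDc => ⟨hB1 s false D hD hDc,
    hB1 s true D hD hDc, hB2 s D hD hDc⟩, ?_, hinj, fun s => ⟨hnt s, ?_⟩, hcross, hninj, ?_⟩
  · intro s
    refine ⟨?_, inferInstance, inferInstance, ?_⟩
    · refine ⟨fun n => Nat.casesOn n {x : X s | x.1 ∈ A false s}
        (fun _ => {x : X s | x.1 ∈ A true s}), ?_, ?_⟩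
      · rw [eq_univ_iff_forall]
        intro x
        rw [mem_iUnion]
        rcases x.2 with h | h
        · exact ⟨0, h⟩
        · exact ⟨1, h⟩
      · intro n
        cases n
        · exact homogeneous_piece subset_union_left (hf s)
        · exact homogeneous_piece subset_union_right (ht s)
    · refine TopologicalSpace.isTopologicalBasis_of_isOpen_of_nhds (fun s hs => hs.2) ?_
      intro x U hxU hU
      obtain ⟨V, hV, rfl⟩ := isOpen_induced_iff.1 hU
      obtain ⟨k, hk⟩ := exists_agr_of_isOpen hV hxU
      refine ⟨{y : X s | Agr k x.1 y.1}, ⟨?_, ?_⟩, agr_refl _ _, fun y hy => hk _ hy⟩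
      · exact (isClosed_agr k x.1).preimage continuous_subtype_val
      · exact (isOpen_agr k x.1).preimage continuous_subtype_val
  · intro s f hfm
    refine countable_of_injective_of_countable_image (f := Subtype.val)
      Subtype.val_injective.injOn ((hmoved s s f hfm).mono ?_)
    rintro _ ⟨_, ⟨x, hx, rfl⟩, rfl⟩
    exact ⟨x, rfl, fun h => hx (Subtype.ext h)⟩
  · intro h x
    have h1 := hinj s univ (fun x => h x.1) isOpen_univ (h.continuous.comp continuous_subtype_val)
      (fun x y hxy => Subtype.ext (h.injective hxy)) ⟨x, mem_univ x⟩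
    exact h1
  · rintro s t ⟨h⟩
    by_contra hst
    obtain ⟨x, -⟩ := (hnt s).exists_pair_ne
    exact hninj s t univ (fun x => h x.1) hst isOpen_univ ⟨x, mem_univ x⟩
      (h.continuous.comp continuous_subtype_val) (fun x y hxy => Subtype.ext (h.injective hxy))

end Pool.Agent.Results.MP_5382b1_gt.BorelRigidFamily
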